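import Mathlib

set_option autoImplicit false

/-! Erdős–Sós bipartite links: blow-up of a sign structure with many good triples. -/

namespace Pool.Agent.ESB

/-- good triples of a sign structure -/
def T3 {V : Type} (s : V → V → Bool) (a b c : V) : Prop :=
  s a b ≠ s a c ∧ s b a ≠ s b c ∧ s c a ≠ s c b

instance {V : Type} (s : V → V → Bool) (a b c : V) : Decidable (T3 s a b c) := by
  unfold T3; infer_instance

/-- number of ordered good triples -/
def T6 {V : Type} [Fintype V] (s : V → V → Bool) : ℕ :=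
  (Finset.univ.filter (fun p : V × V × V => T3 s p.1 p.2.1 p.2.2)).card

theorem T3.ne {V : Type} {s : V → V → Bool} {a b c : V} (h : T3 s a b c) :
    a ≠ b ∧ a ≠ c ∧ b ≠ c := by
  obtain ⟨h1, h2, h3⟩ := h
  refine ⟨?_, ?_, ?_⟩
  · rintro rfl; exact h3 rfl
  · rintro rfl; exact h2 rfl
  · rintro rfl; exact h1 rfl

theorem T3.swap12 {V : Type} {s : V → V → Bool} {a b c : V} (h : T3 s a b c) : T3 s b a c :=
  ⟨h.2.1, h.1, h.2.2.symm⟩

theorem T3.swap23 {V : Type} {s : V → V → Bool} {a b c : V} (h : T3 s a b c) : T3 s a c b :=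
  ⟨h.1.symm, h.2.2, h.2.1⟩

/-- the blow-up -/
def prodS {V W : Type} [DecidableEq V] (s : V → V → Bool) (t : W → W → Bool) :
    V × W → V × W → Bool :=
  fun x y => if x.1 = y.1 then t x.2 y.2 else s x.1 y.1

theorem T6_prod {V W : Type} [DecidableEq V] [DecidableEq W] [Fintype V] [Fintype W]
    (s : V → V → Bool) (t : W → W → Bool) :
    T6 s * Fintype.card W ^ 3 + Fintype.card V * T6 t ≤ T6 (prodS s t) := by
  classical
  unfold T6
  set A := Finset.univ.filter (fun p : V × V × V => T3 s p.1 p.2.1 p.2.2) with hA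
  set B := Finset.univ.filter (fun p : W × W × W => T3 t p.1 p.2.1 p.2.2) with hB
  set C := Finset.univ.filter (fun p : (V × W) × (V × W) × (V × W) =>
    T3 (prodS s t) p.1 p.2.1 p.2.2) with hC
  set f : (V × V × V) × (W × W × W) → (V × W) × (V × W) × (V × W) :=
    fun q => ((q.1.1, q.2.1), (q.1.2.1, q.2.2.1), (q.1.2.2, q.2.2.2)) with hf
  set g : V × (W × W × W) → (V × W) × (V × W) × (V × W) :=
    fun q => ((q.1, q.2.1), (q.1, q.2.2.1), (q.1, q.2.2.2)) with hg
  have hfi : Function.Injective f := by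
    rintro ⟨⟨a, b, c⟩, ⟨a', b', c'⟩⟩ ⟨⟨d, e, k⟩, ⟨d', e', k'⟩⟩ h
    simp only [hf, Prod.mk.injEq] at h ⊢
    tauto
  have hgi : Function.Injective g := by
    rintro ⟨a, ⟨a', b', c'⟩⟩ ⟨d, ⟨d', e', k'⟩⟩ h
    simp only [hg, Prod.mk.injEq] at h ⊢
    tauto
  have h1 : (A ×ˢ (Finset.univ : Finset (W × W × W))).image f ⊆ C := by
    intro p hp
    rw [Finset.mem_image] at hp
    obtain ⟨⟨⟨a, b, c⟩, ⟨a', b', c'⟩⟩, hq, rfl⟩ := hp
    rw [Finset.mem_product] at hq
    have h3 : T3 s a b c := (Finset.mem_filter.mp hq.1).2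
    obtain ⟨n1, n2, n3⟩ := h3.ne
    rw [hC, Finset.mem_filter]
    refine ⟨Finset.mem_univ _, ?_⟩
    simp only [hf, T3, prodS, n1, n2, n3, n1.symm, n2.symm, n3.symm, if_false]
    exact h3
  have h2 : ((Finset.univ : Finset V) ×ˢ B).image g ⊆ C := by
    intro p hp
    rw [Finset.mem_image] at hp
    obtain ⟨⟨a, ⟨a', b', c'⟩⟩, hq, rfl⟩ := hp
    rw [Finset.mem_product] at hq
    have h3 : T3 t a' b' c' := (Finset.mem_filter.mp hq.2).2
    rw [hC, Finset.mem_filter]
    refine ⟨Finset.mem_univ _, ?_⟩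
    simp only [hg, T3, prodS, if_true]
    exact h3
  have hdis : Disjoint ((A ×ˢ (Finset.univ : Finset (W × W × W))).image f)
      (((Finset.univ : Finset V) ×ˢ B).image g) := by
    rw [Finset.disjoint_left]
    intro p hp hp'
    rw [Finset.mem_image] at hp hp'
    obtain ⟨⟨⟨a, b, c⟩, ⟨a', b', c'⟩⟩, hq, rfl⟩ := hp
    obtain ⟨⟨d, ⟨d', e', k'⟩⟩, hq', he⟩ := hp'
    rw [Finset.mem_product] at hq
    have h3 : T3 s a b c := (Finset.mem_filter.mp hq.1).2
    obtain ⟨n1, n2, n3⟩ := h3.ne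
    simp only [hf, hg, Prod.mk.injEq] at he
    exact n1 (by rw [← he.1.1, ← he.2.1.1])
  have h4 := Finset.card_le_card (Finset.union_subset h1 h2)
  rw [Finset.card_union_of_disjoint hdis, Finset.card_image_of_injective _ hfi,
    Finset.card_image_of_injective _ hgi, Finset.card_product, Finset.card_product] at h4
  have h5 : (Finset.univ : Finset (W × W × W)).card = Fintype.card W ^ 3 := by
    rw [Finset.card_univ, Fintype.card_prod, Fintype.card_prod]; ring
  rw [h5, Finset.card_univ] at h4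
  exact h4

theorem T6_equiv {V W : Type} [Fintype V] [Fintype W] (e : V ≃ W)
    (s : V → V → Bool) : T6 (fun x y : W => s (e.symm x) (e.symm y)) = T6 s := by
  classical
  unfold T6
  refine Finset.card_bij' (fun p _ => (e.symm p.1, e.symm p.2.1, e.symm p.2.2))
    (fun p _ => (e p.1, e p.2.1, e p.2.2)) ?_ ?_ ?_ ?_
  · intro p hp
    rw [Finset.mem_filter] at hp ⊢
    exact ⟨Finset.mem_univ _, hp.2⟩
  · intro p hp
    rw [Finset.mem_filter] at hp ⊢
    refine ⟨Finset.mem_univ _, ?_⟩
    have := hp.2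
    simpa [T3] using this
  · intro p _; simp
  · intro p _; simp

/-- iterated blow-up -/
theorem T6_iter (N : ℕ) (s : Fin N → Fin N → Bool) (t : ℕ) :
    ∃ s' : Fin (N ^ t) → Fin (N ^ t) → Bool,
      T6 s * (N ^ t) ^ 3 ≤ T6 s' * (N ^ 3 - N) + T6 s * N ^ t := by
  induction t with
  | zero => exact ⟨fun _ _ => true, by simp⟩
  | succ t ih =>
    obtain ⟨s', h⟩ := ih
    let e : Fin N × Fin (N ^ t) ≃ Fin (N ^ (t + 1)) :=
      (finProdFinEquiv).trans (finCongr (by rw [pow_succ, mul_comm]))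
    refine ⟨fun x y => prodS s s' (e.symm x) (e.symm y), ?_⟩
    rw [T6_equiv e (prodS s s')]
    have h1 := T6_prod s s'
    rw [Fintype.card_fin, Fintype.card_fin] at h1
    have hN : N ≤ N ^ 3 := by
      rcases Nat.eq_zero_or_pos N with rfl | hp
      · simp
      · exact Nat.le_self_pow (by norm_num) N
    obtain ⟨D, hD⟩ := Nat.exists_eq_add_of_le hN
    have hD' : N ^ 3 - N = D := by omega
    rw [hD'] at h ⊢
    have h2 : (T6 s * (N ^ t) ^ 3 + N * T6 s') * D ≤ T6 (prodS s s') * D :=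
      Nat.mul_le_mul_right _ h1
    have h3 : (N ^ (t + 1)) ^ 3 = (N ^ t) ^ 3 * (N + D) := by
      rw [← hD]; ring
    have h4 : N * (T6 s * (N ^ t) ^ 3) ≤ N * (T6 s' * D + T6 s * N ^ t) := Nat.mul_le_mul_left _ h
    have h5 : N ^ (t + 1) = N ^ t * N := pow_succ _ _
    rw [h3, h5]
    calc T6 s * ((N ^ t) ^ 3 * (N + D)) = N * (T6 s * (N ^ t) ^ 3) + T6 s * (N ^ t) ^ 3 * D := by ring
      _ ≤ N * (T6 s' * D + T6 s * N ^ t) + T6 s * (N ^ t) ^ 3 * D := Nat.add_le_add_right h4 _
      _ = (T6 s * (N ^ t) ^ 3 + N * T6 s') * D + T6 s * (N ^ t * N) := by ring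
      _ ≤ T6 (prodS s s') * D + T6 s * (N ^ t * N) := Nat.add_le_add_right h2 _

/-- the 3-graph of the good triples -/
noncomputable def HG {n : ℕ} (s : Fin n → Fin n → Bool) : Finset (Finset (Fin n)) := by
  classical
  exact (Finset.univ.filter (fun p : Fin n × Fin n × Fin n => T3 s p.1 p.2.1 p.2.2)).image
    (fun p => {p.1, p.2.1, p.2.2})

theorem mem_HG {n : ℕ} (s : Fin n → Fin n → Bool) (e : Finset (Fin n)) :
    e ∈ HG s ↔ ∃ a b c, T3 s a b c ∧ e = {a, b, c} := by
  classical
  unfold HG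
  rw [Finset.mem_image]
  constructor
  · rintro ⟨p, hp, rfl⟩
    exact ⟨p.1, p.2.1, p.2.2, (Finset.mem_filter.mp hp).2, rfl⟩
  · rintro ⟨a, b, c, h, rfl⟩
    exact ⟨(a, b, c), by simp [h], rfl⟩

theorem card_of_mem_HG {n : ℕ} (s : Fin n → Fin n → Bool) (e : Finset (Fin n)) (he : e ∈ HG s) :
    e.card = 3 := by
  obtain ⟨a, b, c, h, rfl⟩ := (mem_HG s e).mp he
  obtain ⟨n1, n2, n3⟩ := h.ne
  exact Finset.card_eq_three.mpr ⟨a, b, c, n1, n2, n3, rfl⟩

theorem T3_of_mem {n : ℕ} (s : Fin n → Fin n → Bool) (v x y : Fin n)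
    (h : ({v, x, y} : Finset (Fin n)) ∈ HG s) : T3 s v x y := by
  obtain ⟨a, b, c, h3, he⟩ := (mem_HG s _).mp h
  obtain ⟨n1, n2, n3⟩ := h3.ne
  have hc : ({v, x, y} : Finset (Fin n)).card = 3 := card_of_mem_HG s _ h
  have hvx : v ≠ x := by
    rintro rfl
    have : ({v, v, y} : Finset (Fin n)).card ≤ 2 := by
      rw [Finset.insert_eq_of_mem (Finset.mem_insert_self _ _)]
      exact Finset.card_le_two
    omega
  have hvy : v ≠ y := by
    rintro rfl
    have : ({v, x, v} : Finset (Fin n)).card ≤ 2 := by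
      rw [Finset.insert_eq_of_mem (by simp)]
      exact Finset.card_le_two
    omega
  have hxy : x ≠ y := by
    rintro rfl
    have : ({v, x, x} : Finset (Fin n)).card ≤ 2 := by
      rw [show ({v, x, x} : Finset (Fin n)) = {v, x} by simp]
      exact Finset.card_le_two
    omega
  have hv : v = a ∨ v = b ∨ v = c := by
    have : v ∈ ({a, b, c} : Finset (Fin n)) := by rw [← he]; simp
    simpa using this
  have hx : x = a ∨ x = b ∨ x = c := by
    have : x ∈ ({a, b, c} : Finset (Fin n)) := by rw [← he]; simp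
    simpa using this
  have hy : y = a ∨ y = b ∨ y = c := by
    have : y ∈ ({a, b, c} : Finset (Fin n)) := by rw [← he]; simp
    simpa using this
  rcases hv with rfl | rfl | rfl <;> rcases hx with rfl | rfl | rfl <;>
    rcases hy with rfl | rfl | rfl <;>
    first
    | exact absurd rfl hvx
    | exact absurd rfl hvy
    | exact absurd rfl hxy
    | exact h3
    | exact h3.swap12
    | exact h3.swap23
    | exact h3.swap12.swap23
    | exact h3.swap23.swap12
    | exact h3.swap12.swap23.swap12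

/-- every good set is counted at most six times -/
theorem T6_le_card {n : ℕ} (s : Fin n → Fin n → Bool) : T6 s ≤ 6 * (HG s).card := by
  classical
  unfold T6
  refine Finset.card_le_mul_card_image_of_maps_to (f := fun p : Fin n × Fin n × Fin n =>
    ({p.1, p.2.1, p.2.2} : Finset (Fin n))) (t := HG s) ?_ 6 ?_
  · intro p hp
    exact (mem_HG s _).mpr ⟨p.1, p.2.1, p.2.2, (Finset.mem_filter.mp hp).2, rfl⟩
  · intro e he
    obtain ⟨a, b, c, h3, rfl⟩ := (mem_HG s e).mp he
    have hsub : (Finset.univ.filter (fun p : Fin n × Fin n × Fin n => T3 s p.1 p.2.1 p.2.2)).filter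
        (fun p => ({p.1, p.2.1, p.2.2} : Finset (Fin n)) = {a, b, c}) ⊆
        {(a, b, c), (a, c, b), (b, a, c), (b, c, a), (c, a, b), (c, b, a)} := by
      rintro ⟨x, y, z⟩ hp
      rw [Finset.mem_filter, Finset.mem_filter] at hp
      obtain ⟨⟨_, ht⟩, heq⟩ := hp
      obtain ⟨m1, m2, m3⟩ := ht.ne
      simp only at heq m1 m2 m3
      have hx : x = a ∨ x = b ∨ x = c := by
        have : x ∈ ({a, b, c} : Finset (Fin n)) := by rw [← heq]; simp
        simpa using this
      have hy : y = a ∨ y = b ∨ y = c := by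
        have : y ∈ ({a, b, c} : Finset (Fin n)) := by rw [← heq]; simp
        simpa using this
      have hz : z = a ∨ z = b ∨ z = c := by
        have : z ∈ ({a, b, c} : Finset (Fin n)) := by rw [← heq]; simp
        simpa using this
      rcases hx with rfl | rfl | rfl <;> rcases hy with rfl | rfl | rfl <;>
        rcases hz with rfl | rfl | rfl <;>
        first
        | exact absurd rfl m1
        | exact absurd rfl m2
        | exact absurd rfl m3
        | simp
    refine (Finset.card_le_card hsub).trans ?_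
    exact Finset.card_le_six

end Pool.Agent.ESB
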