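import Pool.Agent.Helper419.ES.Blow

set_option autoImplicit false

/-! Erdős–Sós bipartite links: the two frozen negations from one explicit sign structure. -/

namespace Pool.Agent.ESB

theorem link_one {n : ℕ} (s : Fin n → Fin n → Bool) (v : Fin n) :
    (SimpleGraph.fromRel
      (fun x y : Fin n => ({v, x, y} : Finset (Fin n)) ∈ HG s)).Colorable 2 := by
  refine ⟨SimpleGraph.Coloring.mk (fun x => if s v x then (0 : Fin 2) else 1) ?_⟩
  intro x y hxy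
  have h : s v x ≠ s v y := by
    rcases hxy with ⟨_, h | h⟩
    · exact (T3_of_mem s v x y h).1
    · exact (T3_of_mem s v y x h).1.symm
  cases hx : s v x <;> cases hy : s v y <;> simp_all

theorem link_two {n : ℕ} (s : Fin n → Fin n → Bool) (v : Fin n) :
    (SimpleGraph.fromRel
      (fun x y : Fin n => x ≠ v ∧ y ≠ v ∧ ({v, x, y} : Finset (Fin n)) ∈ HG s)).Colorable 2 := by
  refine ⟨SimpleGraph.Coloring.mk (fun x => if s v x then (0 : Fin 2) else 1) ?_⟩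
  intro x y hxy
  have h : s v x ≠ s v y := by
    rcases hxy with ⟨_, h | h⟩
    · exact (T3_of_mem s v x y h.2.2).1
    · exact (T3_of_mem s v y x h.2.2).1.symm
  cases hx : s v x <;> cases hy : s v y <;> simp_all

/-- the 3-graphs of the iterated blow-up -/
theorem exists_graphs (N : ℕ) (hN : 2 ≤ N) (s : Fin N → Fin N → Bool)
    (h : N ^ 3 - N + 1 ≤ 4 * T6 s) (t : ℕ) :
    ∃ s' : Fin (N ^ t) → Fin (N ^ t) → Bool,
      ((N : ℝ) ^ 3 - N + 1) * (((N : ℝ) ^ t) ^ 3 - (N : ℝ) ^ t) ≤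
        24 * ((N : ℝ) ^ 3 - N) * ((HG s').card : ℝ) := by
  obtain ⟨s', hs⟩ := T6_iter N s t
  refine ⟨s', ?_⟩
  have h1 := T6_le_card s'
  have hN3 : N ≤ N ^ 3 := Nat.le_self_pow (by norm_num) N
  have hs' : (T6 s : ℝ) * ((N : ℝ) ^ t) ^ 3 ≤
      (T6 s' : ℝ) * ((N : ℝ) ^ 3 - N) + (T6 s : ℝ) * (N : ℝ) ^ t := by
    have := (Nat.cast_le (α := ℝ)).mpr hs
    rw [Nat.cast_add, Nat.cast_mul, Nat.cast_mul, Nat.cast_mul, Nat.cast_sub hN3] at this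
    push_cast at this
    exact this
  have h' : (N : ℝ) ^ 3 - N + 1 ≤ 4 * (T6 s : ℝ) := by
    have := (Nat.cast_le (α := ℝ)).mpr h
    rw [Nat.cast_add, Nat.cast_sub hN3] at this
    push_cast at this
    exact this
  have h1' : (T6 s' : ℝ) ≤ 6 * ((HG s').card : ℝ) := by exact_mod_cast h1
  have hN2 : (2 : ℝ) ≤ N := by exact_mod_cast hN
  have hD : (0 : ℝ) ≤ (N : ℝ) ^ 3 - N := by nlinarith [mul_self_nonneg ((N : ℝ) - 1)]
  have hQ1 : (1 : ℝ) ≤ (N : ℝ) ^ t := one_le_pow₀ (by linarith)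
  have hQ : (0 : ℝ) ≤ ((N : ℝ) ^ t) ^ 3 - (N : ℝ) ^ t := by
    have : (N : ℝ) ^ t ≤ ((N : ℝ) ^ t) ^ 3 := le_self_pow₀ hQ1 (by norm_num)
    linarith
  have e1 : ((N : ℝ) ^ 3 - N + 1) * (((N : ℝ) ^ t) ^ 3 - (N : ℝ) ^ t) ≤
      4 * (T6 s : ℝ) * (((N : ℝ) ^ t) ^ 3 - (N : ℝ) ^ t) := mul_le_mul_of_nonneg_right h' hQ
  have e2 : (T6 s' : ℝ) * ((N : ℝ) ^ 3 - N) ≤ 6 * ((HG s').card : ℝ) * ((N : ℝ) ^ 3 - N) :=
    mul_le_mul_of_nonneg_right h1' hD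
  nlinarith [e1, e2, hs']

theorem choose_le (n : ℕ) : 6 * ((n.choose 3 : ℕ) : ℝ) ≤ (n : ℝ) ^ 3 - n := by
  rcases n with _ | _ | _ | n
  · simp
  · simp
  · norm_num [Nat.choose]
  · have h : 6 * (n + 3).choose 3 = (n + 3) * (n + 2) * (n + 1) := by
      have h2 := Nat.descFactorial_eq_factorial_mul_choose (n + 3) 3
      simp only [Nat.descFactorial_succ, Nat.descFactorial_zero] at h2
      have h3 : (3 : ℕ).factorial = 6 := rfl
      rw [h3] at h2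
      rw [← h2]
      have a1 : n + 3 - 2 = n + 1 := by omega
      have a2 : n + 3 - 1 = n + 2 := by omega
      have a3 : n + 3 - 0 = n + 3 := by omega
      rw [a1, a2, a3]
      ring
    have h' : 6 * (((n + 3).choose 3 : ℕ) : ℝ) = ((n : ℝ) + 3) * (n + 2) * (n + 1) := by
      exact_mod_cast h
    push_cast at h' ⊢
    rw [h']
    nlinarith [(Nat.cast_nonneg n : (0 : ℝ) ≤ n)]

/-- S07484 -/
theorem density_gt (N : ℕ) (hN : 2 ≤ N) (s : Fin N → Fin N → Bool)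
    (h : N ^ 3 - N + 1 ≤ 4 * T6 s) :
    ¬ (∀ ε : ℝ, 0 < ε → ∃ N : ℕ, ∀ n : ℕ, N ≤ n →
      ∀ H : Finset (Finset (Fin n)),
        (∀ e ∈ H, e.card = 3) →
        (∀ v : Fin n,
          (SimpleGraph.fromRel
            (fun x y : Fin n => ({v, x, y} : Finset (Fin n)) ∈ H)).Colorable 2) →
        (H.card : ℝ) ≤ (1 / 4 + ε) * ((n.choose 3 : ℕ) : ℝ)) := by
  intro hall
  have hN2 : (2 : ℝ) ≤ N := by exact_mod_cast hN
  have hDpos : (0 : ℝ) < (N : ℝ) ^ 3 - N := by nlinarith [mul_self_nonneg ((N : ℝ) - 1)]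
  set D : ℝ := (N : ℝ) ^ 3 - N with hD
  obtain ⟨M, hM⟩ := hall (1 / (8 * D)) (by positivity)
  obtain ⟨t, ht⟩ : ∃ t : ℕ, max M 3 ≤ N ^ t := by
    refine ⟨max M 3, ?_⟩
    exact (Nat.lt_pow_self (by omega)).le
  obtain ⟨s', hs'⟩ := exists_graphs N hN s h t
  have h1 := hM (N ^ t) (le_trans (le_max_left _ _) ht) (HG s') (card_of_mem_HG s')
    (fun v => link_one s' v)
  have h2 := choose_le (N ^ t)
  push_cast at h2
  have hc : (0 : ℝ) < (((N ^ t).choose 3 : ℕ) : ℝ) := by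
    have : 0 < (N ^ t).choose 3 := Nat.choose_pos (le_trans (le_max_right _ _) ht)
    exact_mod_cast this
  set c : ℝ := (((N ^ t).choose 3 : ℕ) : ℝ) with hcdef
  have e1 : (D + 1) * (6 * c) ≤ 24 * D * ((HG s').card : ℝ) :=
    (mul_le_mul_of_nonneg_left h2 (by positivity)).trans hs'
  have e2 : 24 * D * ((HG s').card : ℝ) ≤ 24 * D * ((1 / 4 + 1 / (8 * D)) * c) :=
    mul_le_mul_of_nonneg_left h1 (by positivity)
  have e3 : 24 * D * ((1 / 4 + 1 / (8 * D)) * c) = 6 * D * c + 3 * c := by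
    field_simp
    ring
  rw [e3] at e2
  nlinarith [e1, e2]

/-- S07266 -/
theorem count_ge (N : ℕ) (hN : 2 ≤ N) (s : Fin N → Fin N → Bool)
    (h : N ^ 3 - N + 1 ≤ 4 * T6 s) :
    ¬ (∀ (n : ℕ), 1 ≤ n → ∀ (H : Finset (Finset (Fin n))),
      (∀ e ∈ H, e.card = 3) →
      (∀ x : Fin n,
        (SimpleGraph.fromRel
          (fun a b : Fin n => a ≠ x ∧ b ≠ x ∧ ({x, a, b} : Finset (Fin n)) ∈ H)).Colorable 2) →
      (H.card : ℝ) < (n : ℝ) ^ 3 / 24) := by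
  intro hall
  have hN2 : (2 : ℝ) ≤ N := by exact_mod_cast hN
  have hDpos : (0 : ℝ) < (N : ℝ) ^ 3 - N := by nlinarith [mul_self_nonneg ((N : ℝ) - 1)]
  obtain ⟨s', hs'⟩ := exists_graphs N hN s h 2
  have h1 := hall (N ^ 2) (Nat.one_le_pow _ _ (by omega)) (HG s') (card_of_mem_HG s')
    (fun v => link_two s' v)
  push_cast at h1
  set D : ℝ := (N : ℝ) ^ 3 - N with hD
  set x : ℝ := (N : ℝ) with hx
  have hx4 : D + 1 ≤ (x ^ 2) ^ 2 := by
    rw [hD]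
    nlinarith [mul_self_nonneg (x - 1), mul_nonneg (sub_nonneg.mpr hN2) (mul_self_nonneg x), pow_pos (by linarith : (0:ℝ) < x) 3]
  have e2 : 24 * D * ((HG s').card : ℝ) < 24 * D * ((x ^ 2) ^ 3 / 24) :=
    mul_lt_mul_of_pos_left h1 (by positivity)
  have e3 : (D + 1) * ((x ^ 2) ^ 3 - x ^ 2) < D * (x ^ 2) ^ 3 := by
    calc (D + 1) * ((x ^ 2) ^ 3 - x ^ 2) ≤ 24 * D * ((HG s').card : ℝ) := hs'
      _ < 24 * D * ((x ^ 2) ^ 3 / 24) := e2
      _ = D * (x ^ 2) ^ 3 := by ring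
  have hx2 : (0 : ℝ) < x ^ 2 := by positivity
  have e4 : (D + 1) * x ^ 2 ≤ (x ^ 2) ^ 2 * x ^ 2 := mul_le_mul_of_nonneg_right hx4 hx2.le
  nlinarith [e3, e4]

end Pool.Agent.ESB
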